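import Pool.Agent.N998.CT.NefFin

set_option autoImplicit false

/-!
# Nef bundles of rank two with small Chern classes on the projective space of dimension four

Let `E` be an indecomposable nef (for example, globally generated) vector bundle of rank two on `ℙ^4`
with the Chern classes `c₁`, `c₂`. We use the following facts.

(1) The Riemann-Roch conditions for `T² - c₁ T + c₂`.

(2) Let `M` be the tautological class on `P = P(E)` (line bundle quotients). It is nef, and the
intersection number of `M^(j+1)` and `h^(4-j)` on `P` is `h_j`, where `h_0 = 1`, `h_1 = c₁`,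
`h_(j+2) = c₁ h_(j+1) - c₂ h_j`. So `h_j ≥ 0` for `j ≤ 4`.

(3) If `E` is stable, then `c₁² < 4 c₂` (Barth), and `c₁² - 4 c₂ ≠ -12`: there is no stable bundle with
`c₁ = 0`, `c₂ = 3` on `ℙ^4` (Barth and Elencwajg).

(4) Let `E` be not stable, let `a` be the largest integer such that `F = E(-a)` has a section `t ≠ 0`,
and `b = c₁ - a ≤ a`. The scheme of zeros `Z` of `t` has codimension two; it is not empty, since `E`
does not split; and `deg Z = c₂(F) = c₂ - a b > 0`, `c₁(F) = b - a ≤ 0`. On a general line `L` the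
section `t` has no zeros, so `O_L(b)` is a quotient of `E|L`, and `b ≥ 0`. Since `t` defines an
effective divisor of the class `M - a h` on `P`, its intersection number with `M^j`, `h^(4-j)` is not
negative: `h_j ≥ a h_(j-1)` for `1 ≤ j ≤ 4`.

(5) In the case (4), `deg Z ≥ 4`: let `S` be a component of `Z` (reduced). The linear terms of `t` at
the points of `S` define a map `φ` from the dual of `F` to `Ω|S ⊂ O(-1)^5`. It has rank at most one,
since a map from `det F* = O(a - b)` to a sum of line bundles `O(-2)` is zero on `S`. It has a zero: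
otherwise the image of `φ` (on a resolution of `S`) is a line subbundle `L` of `O(-1)^5`, the dual of
`L` is `O(1) ⊗ Q` with `Q` globally generated, the kernel of `φ` has the class `(a - b) h - L`, and
`c₂(F) = L ((a - b) h - L) = - (h + Q) ((a - b + 1) h + Q) ≤ 0` on `S`, which is false. So `t` vanishes
to the order two at a point `p`; a general plane through `p` meets `Z` in a finite scheme of degree
`deg Z`, and the local intersection number at `p` is at least four.

We show: `c₁ ≥ 13` if `E` is not stable; `c₁ ≥ 7`, `c₂ ≥ 16`; and `c₁ = 7`, `c₂ = 16` if `c₂ ≤ 17`. The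
stable bundles with `c₁ = 7`, `c₂ = 16` are the bundles `F_HM(1)` up to automorphisms of `ℙ^4` (Decker).
So these are the only indecomposable nef bundles of rank two with `c₂ ≤ 17`. If `c₁ ≤ 9`, then `E` is a
twist of a bundle `g^* F_HM`, `g` an automorphism of `ℙ^4`, with `(c₁, c₂) = (7, 16)` or `(9, 24)`, or
`(c₁, c₂)` is one of `(7, 18)`, `(8, 24)`, `(9, 26)`, `(9, 30)`.
-/

open Polynomial

namespace Pool.Agent.Results.MP_745d3a_ag.SmallNefBundles

open Pool.Agent.R920.CH Pool.Agent.N998.CT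

/-- The numbers `h_0 = 1`, `h_1 = c₁`, `h_(j+2) = c₁ h_(j+1) - c₂ h_j`: the coefficients of
`1 / (1 - c₁ T + c₂ T²)`. -/
def segre (c₁ c₂ : ℤ) : ℕ → ℤ
  | 0 => 1
  | 1 => c₁
  | j + 2 => c₁ * segre c₁ c₂ (j + 1) - c₂ * segre c₁ c₂ j

/-- The numerical conditions (4), (5) for a bundle which is not stable. -/
def Unstable (c₁ c₂ : ℤ) : Prop :=
  ∃ a b : ℤ, a + b = c₁ ∧ 0 ≤ b ∧ b ≤ a ∧ 4 ≤ c₂ - a * b ∧
    ∀ j : ℕ, j < 4 → a * segre c₁ c₂ j ≤ segre c₁ c₂ (j + 1)

/-- The conditions (1) to (5) on the Chern classes `c₁` and `c₂` of an indecomposable nef vector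
bundle of rank two on `ℙ^4`. -/
structure Conditions (c₁ c₂ : ℤ) : Prop where
  riemannRoch : RiemannRoch 4 (X ^ 2 - C c₁ * X + C c₂)
  positive : ∀ j : ℕ, j ≤ 4 → 0 ≤ segre c₁ c₂ j
  stability : (c₁ ^ 2 < 4 * c₂ ∧ c₁ ^ 2 - 4 * c₂ ≠ -12) ∨ Unstable c₁ c₂

lemma segre_eq (c₁ c₂ : ℤ) : ∀ j : ℕ, segre c₁ c₂ j = seg c₁ c₂ j := by
  intro j
  induction j using Nat.twoStepInduction with
  | zero => rfl
  | one => rfl
  | more n ih1 ih2 => rw [segre, seg, ih1, ih2]

/-- The pairs with `c₁ ≤ 9`. -/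
def pairs : List (ℤ × ℤ) := [(7, 16), (9, 24), (7, 18), (8, 24), (9, 26), (9, 30)]

lemma test4 : ∀ c : Fin 10, ∀ d : Fin 41, (nefTest 3 1 (c : ℤ) (d : ℤ) ||
    decide ((c : ℤ) ^ 2 - 4 * (d : ℤ) = -12) || decide (((c : ℤ), (d : ℤ)) ∈ pairs)) = true := by
  decide +kernel

lemma testU : ∀ c : Fin 13, ∀ d : Fin 73, (nefTest 3 1 (c : ℤ) (d : ℤ) ||
    (List.range 13).all fun a => decide (2 * (a : ℤ) < c) ||
      decide (((c : ℕ) : ℤ) < a) || decide ((d : ℤ) - a * (c - a) < 4) ||
      decide (seg (c : ℤ) (d : ℤ) 4 < a * seg (c : ℤ) (d : ℤ) 3)) = true := by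
  decide +kernel

lemma c2_le (c₁ c₂ : ℤ) (hc0 : 0 ≤ c₁) (hseg : ∀ j : ℕ, j ≤ 4 → 0 ≤ seg c₁ c₂ j) :
    2 * c₂ ≤ c₁ ^ 2 := by
  have h3 := hseg 3 (by omega)
  simp only [seg] at h3
  rcases eq_or_lt_of_le hc0 with h | h
  · have h2 := hseg 2 (by omega)
    simp only [seg] at h2
    rw [← h] at h2 ⊢
    linarith
  · by_contra hc
    push Not at hc
    nlinarith

/-- an indecomposable nef bundle which is not stable has `c₁ ≥ 13` -/
lemma unst (c₁ c₂ : ℤ) (hRR : RiemannRoch 4 (poly2 c₁ c₂))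
    (hseg : ∀ j : ℕ, j ≤ 4 → 0 ≤ seg c₁ c₂ j) (hc0 : 0 ≤ c₁) (h : Unstable c₁ c₂) :
    13 ≤ c₁ := by
  obtain ⟨a, b, hab, hb, hba, hz, hs⟩ := h
  rcases lt_or_ge (c₁ ^ 2) (4 * c₂) with hD | hD
  · by_contra hcon
    push Not at hcon
    have hc2 : 0 < c₂ := by nlinarith [sq_nonneg c₁]
    have hc3 := c2_le c₁ c₂ hc0 hseg
    have hCB : c₂ ≤ 72 := by nlinarith
    have h1 := testU ⟨c₁.toNat, by omega⟩ ⟨c₂.toNat, by omega⟩
    have e1 : (((⟨c₁.toNat, by omega⟩ : Fin 13) : ℕ) : ℤ) = c₁ := by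
      simp [Int.toNat_of_nonneg hc0]
    have e2 : (((⟨c₂.toNat, by omega⟩ : Fin 73) : ℕ) : ℤ) = c₂ := by
      simp [Int.toNat_of_nonneg hc2.le]
    rw [e1, e2, nefTest_spec 4 3 1 (by omega) (by omega) c₁ c₂ hRR hseg hD, Bool.false_or,
      List.all_eq_true] at h1
    have h2 := h1 a.toNat (by rw [List.mem_range]; omega)
    rw [Int.toNat_of_nonneg (by omega)] at h2
    simp only [Bool.or_eq_true, decide_eq_true_eq] at h2
    have h3 := hs 3 (by omega)
    rw [segre_eq, segre_eq] at h3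
    have e3 : c₁ - a = b := by omega
    rw [e3] at h2
    rcases h2 with ((h2 | h2) | h2) | h2
    · omega
    · omega
    · omega
    · have : seg c₁ c₂ (3 + 1) = seg c₁ c₂ 4 := rfl
      omega
  · have h1 := nef_unstable 4 (by omega) c₁ c₂ a b hab hb hba (by norm_num; linarith) hD
      fun j hj => by rw [← segre_eq, ← segre_eq]; exact hs j hj
    norm_num at h1
    nlinarith

/-- **Small nef bundles of rank two on `ℙ^4`.** -/
theorem result (c₁ c₂ : ℤ) (h : Conditions c₁ c₂) :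
    7 ≤ c₁ ∧ 16 ≤ c₂ ∧ (c₂ ≤ 17 → c₁ = 7 ∧ c₂ = 16) ∧ (c₁ ≤ 9 → (c₁, c₂) ∈ pairs) ∧
      (Unstable c₁ c₂ → 13 ≤ c₁) := by
  have hRR : RiemannRoch 4 (poly2 c₁ c₂) := h.riemannRoch
  have hseg : ∀ j : ℕ, j ≤ 4 → 0 ≤ seg c₁ c₂ j :=
    fun j hj => by rw [← segre_eq]; exact h.positive j hj
  have hc0 : 0 ≤ c₁ := by
    have h1 := hseg 1 (by omega)
    simpa only [seg] using h1
  have hU := unst c₁ c₂ hRR hseg hc0
  have hkey : c₁ ≤ 9 → (c₁, c₂) ∈ pairs := by
    intro h9
    rcases h.stability with ⟨hD, hBE⟩ | h1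
    · have hc2 : 0 < c₂ := by nlinarith [sq_nonneg c₁]
      have hc3 := c2_le c₁ c₂ hc0 hseg
      have hCB : c₂ ≤ 40 := by nlinarith
      have h1 := test4 ⟨c₁.toNat, by omega⟩ ⟨c₂.toNat, by omega⟩
      have e1 : (((⟨c₁.toNat, by omega⟩ : Fin 10) : ℕ) : ℤ) = c₁ := by
        simp [Int.toNat_of_nonneg hc0]
      have e2 : (((⟨c₂.toNat, by omega⟩ : Fin 41) : ℕ) : ℤ) = c₂ := by
        simp [Int.toNat_of_nonneg hc2.le]
      rw [e1, e2, nefTest_spec 4 3 1 (by omega) (by omega) c₁ c₂ hRR hseg hD, Bool.false_or,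
        Bool.or_eq_true, decide_eq_true_eq, decide_eq_true_eq] at h1
      rcases h1 with h1 | h1
      · exact absurd h1 hBE
      · exact h1
    · have := hU h1
      omega
  have hbig : 9 < c₁ → 18 ≤ c₂ := by
    intro h9
    rcases h.stability with ⟨hD, -⟩ | h1
    · nlinarith
    · rcases lt_or_ge (c₁ ^ 2) (4 * c₂) with hD | hD
      · nlinarith
      · obtain ⟨a, b, hab, hb, hba, hz, hs⟩ := h1
        have h1 := nef_unstable 4 (by omega) c₁ c₂ a b hab hb hba (by norm_num; linarith) hD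
          fun j hj => by rw [← segre_eq, ← segre_eq]; exact hs j hj
        norm_num at h1
        omega
  refine ⟨?_, ?_, ?_, hkey, hU⟩
  · by_contra hcon
    have := hkey (by omega)
    simp only [pairs, List.mem_cons, Prod.mk.injEq, List.not_mem_nil, or_false] at this
    omega
  · rcases le_or_gt c₁ 9 with h9 | h9
    · have := hkey h9
      simp only [pairs, List.mem_cons, Prod.mk.injEq, List.not_mem_nil, or_false] at this
      omega
    · have := hbig h9
      omega
  · intro h17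
    rcases le_or_gt c₁ 9 with h9 | h9
    · have := hkey h9
      simp only [pairs, List.mem_cons, Prod.mk.injEq, List.not_mem_nil, or_false] at this
      omega
    · have := hbig h9
      omega

end Pool.Agent.Results.MP_745d3a_ag.SmallNefBundles
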